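import Mathlib

open Matrix Quaternion MulOpposite

namespace Pool.Agent.Results.MP_8dad81_al.Five

abbrev Q : Type := ℍ[ℝ]

def U (x : Q) : Prop := star x * x = 1 ∧ x * star x = 1

lemma U.of {x : Q} (h : normSq x = 1) : U x := ⟨by simp [star_mul_self, h], by simp [self_mul_star, h]⟩
lemma U.n {x : Q} (h : U x) : normSq x = 1 := by simpa [star_mul_self] using congrArg (·.re) h.1
lemma U.mul {x y : Q} (h : U x) (k : U y) : U (x * y) := .of (by simp [h.n, k.n])
lemma U.st {x : Q} (h : U x) : U (star x) := .of (by simp [h.n])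

lemma nrm {x : Q} (h : x ≠ 0) : ∃ t : ℝ, t ≠ 0 ∧ U (t • x) := by
  have : 0 < normSq x := normSq_nonneg.lt_of_ne' (mt normSq_eq_zero.1 h)
  exact ⟨(√(normSq x))⁻¹, by positivity, .of (by rw [normSq_smul, inv_pow, Real.sq_sqrt this.le, inv_mul_cancel₀ this.ne'])⟩

lemma perp (a : Q) : ∃ x, U x ∧ star x = -x ∧ x * a = star a * x := by
  obtain ⟨x, h, p, q⟩ : ∃ x : Q, x ≠ 0 ∧ star x = -x ∧ x * a = star a * x := by
    by_cases h : a.imJ = 0 ∧ a.imK = 0
    · exact ⟨⟨0, 0, 1, 0⟩, by simp [Quaternion.ext_iff], by ext <;> simp, by ext <;> simp [h]⟩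
    · exact ⟨⟨0, 0, -a.imK, a.imJ⟩, by simp [Quaternion.ext_iff]; tauto, by ext <;> simp, by ext <;> simp <;> ring⟩
  obtain ⟨t, -, k⟩ := nrm h
  exact ⟨_, k, by simp [p], by simp [q]⟩

lemma cnj {X Y : Q} (hX : star X = -X) (hY : star Y = -Y) (h : normSq X = normSq Y) :
    ∃ p, U p ∧ star p * X * p = Y := by
  obtain ⟨p, k, e⟩ : ∃ p, U p ∧ X * p = p * Y := by
    by_cases e : X + Y = 0
    · obtain ⟨x, u, -, q⟩ := perp X
      exact ⟨x, u, by rw [eq_neg_of_add_eq_zero_right e, mul_neg, q, hX]; simp⟩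
    obtain ⟨t, -, k⟩ := nrm e
    have a := star_mul_self X
    have b := star_mul_self Y
    rw [hX, neg_mul, h, ← b, hY, neg_mul, neg_inj] at a
    exact ⟨_, k, by rw [mul_smul_comm, smul_mul_assoc, mul_add, add_mul, a, add_comm]⟩
  exact ⟨p, k, by rw [mul_assoc, e, ← mul_assoc, k.1, one_mul]⟩

lemma pur {a : Q} (h : U a) : ∃ x y, U x ∧ U y ∧ star x = -x ∧ star y = -y ∧ x * y = a := by
  obtain ⟨x, u, p, q⟩ := perp a
  exact ⟨x, star x * a, u, u.st.mul h, p, by rw [star_mul, star_star, p, neg_mul, q, neg_neg],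
    by rw [← mul_assoc, u.2, one_mul]⟩

lemma two {x y : Q} (h : U x) (k : U y) (hx : star x = -x) (hy : star y = -y) :
    ∃ p q, U p ∧ U q ∧ p * star q = x ∧ star p * q = y := by
  obtain ⟨p, u, e⟩ := cnj (X := star x) (by simp [hx]) hy (by simp [h.n, k.n])
  exact ⟨p, star x * p, u, h.st.mul u, by rw [star_mul, star_star, ← mul_assoc, u.2, one_mul], by rw [← mul_assoc, e]⟩

lemma pair (a b : Q) : ∃ f : Fin 4 → Q, U a → U b → (∀ i, U (f i)) ∧
    f 0 * star (f 1) * (f 2 * star (f 3)) = a ∧ star (f 0) * f 1 * (star (f 2) * f 3) = b := by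
  by_cases h : U a ∧ U b
  · obtain ⟨x, y, a1, a2, a3, a4, rfl⟩ := pur h.1
    obtain ⟨z, w, b1, b2, b3, b4, rfl⟩ := pur h.2
    obtain ⟨p, q, c1, c2, rfl, rfl⟩ := two a1 b1 a3 b3
    obtain ⟨r, s, d1, d2, rfl, rfl⟩ := two a2 b2 a4 b4
    exact ⟨![p, q, r, s], fun _ _ => ⟨by simp [Fin.forall_fin_succ, *], rfl, rfl⟩⟩
  · exact ⟨0, fun a b => (h ⟨a, b⟩).elim⟩

lemma eig {κ : Type} [Fintype κ] [Nonempty κ] (B : Matrix κ κ Q) : ∃ v ≠ 0, ∃ l : Q, B *ᵥ v = op l • v := by
  let φ : ℂ →+* Qᵐᵒᵖ := ofComplex.toRingHom.toOpposite fun x y => (Commute.all x y).map _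
  let _ : Module ℂ (κ → Q) := Module.compHom _ φ
  have : IsScalarTower ℝ ℂ (κ → Q) := ⟨fun r z v => by
    ext1 i
    change v i * ((r * z : ℂ) : Q) = r • (v i * z)
    rw [coeComplex_mul, coeComplex_coe, coe_mul_eq_smul, mul_smul_comm]⟩
  have := Module.Finite.of_restrictScalars_finite ℝ ℂ (κ → Q)
  let T : Module.End ℂ (κ → Q) := ⟨⟨B.mulVec, mulVec_add B⟩, fun z v => mulVec_smul B (op (z : Q)) v⟩
  obtain ⟨z, h⟩ := T.exists_eigenvalue
  obtain ⟨v, h⟩ := h.exists_hasEigenvector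
  exact ⟨v, h.2, z, h.apply_eq_smul⟩

section
variable {ι : Type} [Fintype ι] [DecidableEq ι]

def Inv (r : Matrix ι ι Q) : Prop := star r = r ∧ r * r = 1
lemma Inv.u {r : Matrix ι ι Q} (h : Inv r) : r ∈ unitary (Matrix ι ι Q) := ⟨by rw [h.1, h.2], by rw [h.1, h.2]⟩
lemma Inv.c {r H : Matrix ι ι Q} (h : Inv r) (k : Inv H) : Inv (H * r * H) :=
  ⟨by simp [h.1, k.1, mul_assoc], by simp [mul_assoc, ← mul_assoc H H, k.2, ← mul_assoc r r, h.2]⟩

omit [DecidableEq ι] in
lemma nn (w : ι → Q) : ∃ N : ℝ, star w ⬝ᵥ w = N ∧ 0 ≤ N ∧ (N = 0 → w = 0) :=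
  ⟨∑ i, normSq (w i), by simp [dotProduct, star_mul_self, ← algebraMap_def], Finset.sum_nonneg fun _ _ => normSq_nonneg,
    fun h => funext fun i => normSq_eq_zero.1
      ((Finset.sum_eq_zero_iff_of_nonneg fun _ _ => normSq_nonneg).1 h i (Finset.mem_univ i))⟩

lemma house (u v : ι → Q) (h1 : star u ⬝ᵥ u = star v ⬝ᵥ v) (h2 : star u ⬝ᵥ v = star v ⬝ᵥ u) :
    ∃ H, Inv H ∧ H *ᵥ u = v ∧ ∀ j, u j = v j → H *ᵥ Pi.single j 1 = Pi.single j 1 := by
  obtain ⟨N, a, -, b⟩ := nn (u - v)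
  have c : star (u - v) ⬝ᵥ u = ((N / 2 : ℝ) : Q) := by
    have : (2 : ℝ) • (star (u - v) ⬝ᵥ u) = N := by
      rw [← a, two_smul]
      simp only [star_sub, sub_dotProduct, dotProduct_sub, h1, h2]
      abel
    rw [div_eq_inv_mul, coe_mul, coe_mul_eq_smul, ← this, smul_smul]
    simp
  generalize hw : u - v = w at *
  refine ⟨1 - (2 / N) • vecMulVec w (star w), ⟨?_, ?_⟩, ?_, fun j e => ?_⟩
  · ext1 i j
    simp [vecMulVec_apply, one_apply, eq_comm, apply_ite]
  · have : vecMulVec w (star w) * vecMulVec w (star w) = N • vecMulVec w (star w) := by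
      rw [vecMulVec_mul_vecMulVec, a]; ext1; simp [vecMulVec_apply, coe_mul_eq_smul]
    simp only [sub_mul, mul_sub, one_mul, mul_one, smul_mul_assoc, mul_smul_comm, this, smul_sub, smul_smul]
    rw [show 2 / N * (2 / N * N) = 2 / N + 2 / N by by_cases h : N = 0 <;> [simp [h]; (field_simp; ring)], add_smul]
    abel
  · rw [sub_mulVec, one_mulVec, smul_mulVec, vecMulVec_mulVec, c, ← sub_sub_cancel u v, hw]
    by_cases h : N = 0
    · simp [b h]
    · ext1 i
      simp [mul_coe_eq_smul, smul_smul, h, -coe_div]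
  · have : w j = 0 := by simp [← hw, e]
    simp [sub_mulVec, smul_mulVec, vecMulVec_mulVec, this, -mulVec_single]

def Col (A : Matrix ι ι Q) (j : ι) (a : Q) : Prop := A *ᵥ Pi.single j 1 = Pi.single j a

lemma Col.e {A : Matrix ι ι Q} {j a} (h : Col A j a) (k) : A k j = (Pi.single j a : ι → Q) k := by
  simpa using congrFun h k

lemma Col.row {A : Matrix ι ι Q} {j a} (h : Col A j a) (u : A ∈ unitary _) :
    U a ∧ ∀ k ≠ j, A j k = 0 := by
  have t : ∀ k, star a * A j k = (1 : Matrix ι ι Q) j k := fun k => by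
    rw [← u.1, mul_apply, Finset.sum_eq_single j (fun l _ n => by simp [h.e, n]) (by simp)]
    simp [h.e]
  have s : star a * a = 1 := by simpa [h.e] using t j
  have v : U a := .of (by simpa [star_mul_self] using congrArg (·.re) s)
  exact ⟨v, fun k n => by simpa [← mul_assoc, v.2, n.symm] using congrArg (a * ·) (t k)⟩

lemma step {A : Matrix ι ι Q} (S : Set ι) (i) {v l} (h0 : v ≠ 0) (hS : ∀ j ∈ S, v j = 0) (hi : i ∉ S)
    (h : A *ᵥ v = op l • v) :
    ∃ H g, Inv H ∧ U g ∧ Col (H * A * H) i (star g * l * g) ∧ ∀ j ∈ S, ∀ a, Col A j a → Col (H * A * H) j a := by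
  obtain ⟨g, u, r⟩ : ∃ g, U g ∧ star (v i * g) = v i * g := by
    by_cases e : v i = 0
    · exact ⟨1, .of (by simp), by simp [e]⟩
    obtain ⟨t, -, k⟩ := nrm (star_ne_zero.2 e)
    exact ⟨_, k, by simp⟩
  obtain ⟨N, a, b, c⟩ := nn v
  have p : 0 < N := b.lt_of_ne' (mt c h0)
  obtain ⟨H, k, e, f⟩ := house (Pi.single i 1) ((√N)⁻¹ • op g • v) (by
    have : star (op g • v) ⬝ᵥ op g • v = star g * (star v ⬝ᵥ v) * g := by
      simp [dotProduct, Finset.mul_sum, Finset.sum_mul, mul_assoc]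
    rw [show ∀ (t : ℝ) (z : ι → Q), star (t • z) = t • star z from fun t z => by ext1; simp, smul_dotProduct,
      dotProduct_smul, this, a, mul_coe_eq_smul, smul_mul_assoc, u.1, smul_smul, smul_smul, ← mul_inv,
      Real.mul_self_sqrt b, inv_mul_cancel₀ p.ne']
    simp [Pi.star_single]) (by simp [Pi.star_single, -star_mul, r])
  have z : ∀ x, H *ᵥ H *ᵥ x = x := fun x => by rw [mulVec_mulVec, k.2, one_mulVec]
  have y : ∀ j (a : Q), (Pi.single j a : ι → Q) = op a • Pi.single j 1 := fun j a => by simp [← Pi.single_smul]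
  refine ⟨H, g, k, u, ?_, fun j m a t => ?_⟩
  · rw [Col, ← mulVec_mulVec, ← mulVec_mulVec, y i (_ * _), ← z (Pi.single i 1), z, ← mulVec_smul, e, mulVec_smul A,
      mulVec_smul A, h]
    congr 1
    ext1
    simp [mul_assoc, ← mul_assoc g, u.2]
  · have := f j (by simp [hS j m, Pi.single_eq_of_ne (ne_of_mem_of_not_mem m hi)])
    rw [Col, ← mulVec_mulVec, ← mulVec_mulVec, this, t, y j a, mulVec_smul, this]

lemma diag (Φ : Matrix ι ι Q → Prop) (hΦ : ∀ A H, Inv H → Φ (H * A * H) → Φ A) (n) :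
    ∀ (S : Finset ι) (A), Sᶜ.card = n → A ∈ unitary _ → (∀ j ∈ S, ∃ a, Col A j a) →
      (∀ d, (∀ j, U (d j)) → (∀ j ∈ S, ∀ a, Col A j a → d j = a) → Φ (diagonal d)) → Φ A := by
  induction n with
  | zero =>
    intro S A e u h k
    obtain rfl : S = .univ := by simpa using e
    choose d h using fun j => h j (Finset.mem_univ j)
    convert k d (fun j => ((h j).row u).1) fun j _ a t => by simpa using ((h j).e j).symm.trans (t.e j)
    ext1 i j
    simp [(h j).e, diagonal_apply, Pi.single_apply]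
    split_ifs with t <;> simp [t]
  | succ n ih =>
    intro S A e u h k
    obtain ⟨i, hi⟩ : Sᶜ.Nonempty := Finset.card_pos.1 (by omega)
    rw [Finset.mem_compl] at hi
    have : Nonempty {j // j ∉ S} := ⟨⟨i, hi⟩⟩
    obtain ⟨v, v0, l, t⟩ := eig (A.submatrix Subtype.val Subtype.val : Matrix {j // j ∉ S} _ Q)
    obtain ⟨H, g, p, -, q, r⟩ := step (A := A) (l := l) S i (v := fun j => if h : j ∉ S then v ⟨j, h⟩ else 0)
      (fun e => v0 (funext fun j => by simpa [j.2] using congrFun e j)) (by simp +contextual) hi (by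
        ext1 j
        have : (A *ᵥ fun j => if h : j ∉ S then v ⟨j, h⟩ else 0) j = ∑ x : {j // j ∉ S}, A j x * v x := by
          rw [mulVec, dotProduct, ← Fintype.sum_subtype_add_sum_subtype (· ∉ S)]
          rw [Finset.sum_eq_zero (s := .univ) (f := fun x : {x // ¬x ∉ S} => _) fun x _ => by rw [dif_neg x.2, mul_zero],
            add_zero]
          exact Finset.sum_congr rfl fun x _ => by rw [dif_pos x.2]
        rw [this]
        by_cases m : j ∈ S
        · obtain ⟨a, c⟩ := h j m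
          simp [m, fun x : {j // j ∉ S} => (c.row u).2 x (ne_of_mem_of_not_mem m x.2).symm]
        · simpa [m, mulVec, dotProduct] using congrFun t ⟨j, m⟩)
    refine hΦ A H p (ih (insert i S) _ ?_ (mul_mem (mul_mem p.u u) p.u) ?_ fun d a b => k d a fun j m c s =>
      b j (Finset.mem_insert_of_mem m) c (r j m c s))
    · rw [Finset.compl_insert, Finset.card_erase_of_mem (by simpa), e]; rfl
    · simp only [Finset.mem_insert, forall_eq_or_imp]
      exact ⟨⟨_, q⟩, fun j m => (h j m).imp (r j m)⟩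

def Four (A : Matrix ι ι Q) : Prop := ∃ a b c d, Inv a ∧ Inv b ∧ Inv c ∧ Inv d ∧ A = a * b * (c * d)

lemma Four.c (A H : Matrix ι ι Q) (k : Inv H) : Four (H * A * H) → Four A := fun ⟨a, b, c, d, p, q, r, s, e⟩ =>
  ⟨_, _, _, _, p.c k, q.c k, r.c k, s.c k, by
    have := congrArg (H * · * H) e
    simpa [mul_assoc, ← mul_assoc H H, k.2] using this⟩
end

noncomputable def mo {n} (f : Fin n → Q) : Matrix (Fin n) (Fin n) Q := .of fun i j => if j = i.rev then f i else 0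
lemma mm {n} (f g : Fin n → Q) : mo f * mo g = diagonal fun i => f i * g i.rev := by
  ext1 i j
  rw [mul_apply, Finset.sum_eq_single i.rev (by simp +contextual [mo]) (by simp)]
  simp [mo, diagonal_apply, eq_comm]
lemma mi {n} {f : Fin n → Q} (h : ∀ i, f i.rev = star (f i)) (u : ∀ i, U (f i)) : Inv (mo f) := by
  refine ⟨?_, by simp [mm, h, (u _).2]⟩
  ext1 i j
  by_cases e : j = i.rev
  · simp [mo, e, h]
  · simp [mo, e, show i ≠ j.rev from fun t => e (by simp [t])]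

lemma four {n} (d : Fin n → Q) (u : ∀ j, U (d j)) (h : ∀ j, j.rev = j → d j = 1) : Four (diagonal d) := by
  choose F hF using pair
  let f (k) (i : Fin n) := if i < i.rev then F (d i) (d i.rev) k else if i.rev < i then star (F (d i.rev) (d i) k) else 1
  have a : ∀ k i, f k i.rev = star (f k i) := fun k i => by
    rcases lt_trichotomy i i.rev with t | t | t
    exacts [by simp [f, t, lt_asymm t], by simp [f, ← t], by simp [f, t, lt_asymm t]]
  have b : ∀ k i, U (f k i) := fun k i => by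
    simp only [f]
    split_ifs
    exacts [(hF _ _ (u _) (u _)).1 k, ((hF _ _ (u _) (u _)).1 k).st, .of (by simp)]
  refine ⟨_, _, _, _, mi (a 0) (b 0), mi (a 1) (b 1), mi (a 2) (b 2), mi (a 3) (b 3), ?_⟩
  rw [mm, mm, diagonal_mul_diagonal]
  congr 1
  ext1 i
  simp only [a]
  rcases lt_trichotomy i i.rev with t | t | t
  · simp [f, t, (hF _ _ (u _) (u _)).2.1]
  · simp [f, ← t, h i t.symm]
  · simp [f, t, lt_asymm t, (hF _ _ (u _) (u _)).2.2]

lemma five {n} (hn : 2 ≤ n) (d : Fin n → Q) (u : ∀ j, U (d j)) : ∃ r, Inv r ∧ Four (r * diagonal d) := by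
  by_cases e : ∃ m : Fin n, m.rev = m
  swap
  · exact ⟨1, ⟨by simp, by simp⟩, by simpa using four d u fun j t => (e ⟨j, t⟩).elim⟩
  obtain ⟨m, e⟩ := e
  obtain ⟨k, hk⟩ : ∃ k, k ≠ m := ⟨⟨0, by omega⟩, fun t => by simp [← t, Fin.ext_iff] at e; omega⟩
  obtain ⟨x, y, h0, t⟩ : ∃ x y : Q, (x ≠ 0 ∨ y ≠ 0) ∧ star x * (d m).im * x + star y * (d k).im * y = 0 := by
    by_cases z : (d m).im = 0
    · exact ⟨1, 0, by simp, by simp [z]⟩
    obtain ⟨p, a, b⟩ := cnj (X := ‖(d m).im‖ • (d k).im) (Y := -‖(d k).im‖ • (d m).im) (by simp) (by simp)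
      (by simp [normSq_eq_norm_mul_self, norm_smul]; ring)
    refine ⟨√‖(d k).im‖ • 1, √‖(d m).im‖ • p, .inr (smul_ne_zero (by simpa using z) fun t => by simpa [t] using a.1), ?_⟩
    simp only [mul_smul_comm, smul_mul_assoc] at b
    simp [smul_smul, b]
  let v : Fin n → Q := Pi.single m x + Pi.single k y
  have s : ∀ f g : Fin n → Q → Q, star (Pi.single m (f m x) + Pi.single k (f k y) : Fin n → Q) ⬝ᵥ
      (Pi.single m (g m x) + Pi.single k (g k y)) = star (f m x) * g m x + star (f k y) * g k y := fun f g => by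
    simp [Pi.star_single, hk, hk.symm]
  have w : diagonal d *ᵥ v = Pi.single m (d m * x) + Pi.single k (d k * y) := by
    simp only [v, mulVec_add, diagonal_mulVec_single]
  obtain ⟨r, p, q, -⟩ := house (diagonal d *ᵥ v) v
    (by rw [w, s (d · * ·) (d · * ·), s (fun _ z => z) fun _ z => z]; simp [mul_assoc, ← mul_assoc _ (d _), (u _).1])
    (by
      rw [w, s (d · * ·) fun _ z => z, s (fun _ z => z) (d · * ·)]
      have : ∀ a : Q, star a = a - a.im - a.im := fun a => by ext <;> simp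
      simp only [star_mul, this (d _), mul_sub, sub_mul, mul_assoc] at t ⊢
      rw [← sub_eq_zero, ← neg_zero, ← add_zero (0 : Q)]
      nth_rw 1 [← t, ← t]
      abel)
  have U' : r * diagonal d ∈ unitary _ := mul_mem p.u
    ⟨by simp [star_eq_conjTranspose, diagonal_conjTranspose, (u _).1], by simp [star_eq_conjTranspose, (u _).2]⟩
  obtain ⟨H, g, a, b, c, -⟩ := step (A := r * diagonal d) ∅ m (v := v) (l := 1)
    (fun z => h0.elim (· (by simpa [v, hk.symm] using congrFun z m)) (· (by simpa [v, hk] using congrFun z k)))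
    (by simp) id (by rw [← mulVec_mulVec, q]; simp)
  rw [mul_one, b.1] at c
  refine ⟨r, p, .c _ H a (diag Four Four.c _ {m} _ rfl (mul_mem (mul_mem a.u U') a.u) (by simpa using ⟨_, c⟩)
    fun d u h => four d u fun j t => h j ?_ 1 ?_)⟩
  all_goals
    obtain rfl : j = m := by simp only [Fin.ext_iff, Fin.val_rev] at e t ⊢; omega
    first | exact c | simp

theorem result (n : ℕ) (hn : 2 ≤ n) (A : unitary (Matrix (Fin n) (Fin n) ℍ[ℝ])) :
    ∃ r₁ r₂ r₃ r₄ r₅ : unitary (Matrix (Fin n) (Fin n) ℍ[ℝ]),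
      r₁ ^ 2 = 1 ∧ r₂ ^ 2 = 1 ∧ r₃ ^ 2 = 1 ∧ r₄ ^ 2 = 1 ∧ r₅ ^ 2 = 1 ∧ A = r₁ * r₂ * r₃ * r₄ * r₅ := by
  obtain ⟨r, p, a, b, c, d, q, s, t, u, e⟩ := diag (fun A => ∃ r, Inv r ∧ Four (r * A))
    (fun A H k ⟨r, p, q⟩ => ⟨_, p.c k, .c _ H k (by simpa [mul_assoc, ← mul_assoc H H, k.2] using q)⟩) _ ∅ A.1 rfl A.2
    (by simp) fun d u _ => five hn d u
  have k : ∀ {r} (h : Inv r), (⟨r, h.u⟩ : unitary (Matrix (Fin n) (Fin n) Q)) ^ 2 = 1 := fun h =>
    Subtype.ext (by simpa [sq] using h.2)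
  refine ⟨_, _, _, _, _, k p, k q, k s, k t, k u, Subtype.ext ?_⟩
  simpa [← mul_assoc, p.2] using congrArg (r * ·) e

end Pool.Agent.Results.MP_8dad81_al.Five
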